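import Pool.Agent.W47.JL.Single

/-!
# The general theorem of project JL with a constant that depends only on the measure

The proof is that of `Pool.Agent.W47.JL.general` (helper47), with the quantifiers reordered.
-/

set_option autoImplicit false

namespace Pool.Agent.Y928.JL

open Finset Polynomial
open Pool.Agent.H831R3.LC (W dig dig_abs)
open Pool.Agent.W47.JL

/-- **The general theorem.** -/
theorem generalU (hSM : S_SMALL) (hDE : S_DESC) (hAP : S_APPROX) 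
    (μ c0 A : ℝ) (hμ : 1 < μ) (hc0 : 0 < c0) (hA0 : 0 ≤ A) :
    ∃ C : ℝ, 0 < C ∧ ∀ (J : ℕ) (x : Fin J → ℝ), Meas J x μ c0 A →
      ∀ b : ℕ, 2 ≤ b → ∀ (L m k : ℕ) (s : Fin J → ℕ → ℤ),
      (∀ j, ∀ i < L, |s j i| ≤ b) →
      (∃ E : Finset ℕ, E.card ≤ k ∧ ∀ i < L, i ∉ E → ∀ j, s j i = dig (x j) b (i + 1)) →
      (∃ c : ℕ → ℚ, ∀ j i, i + m < L → (s j (i + m) : ℚ) = ∑ l ∈ range m, c l * (s j (i + l) : ℚ)) →
      (L : ℝ) ≤ (∑ i ∈ range (k + 1), μ ^ (i + 1)) * (m + C * err m) := by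
  obtain ⟨α, hα⟩ : ∃ α : ℝ, α = 3 / 2 * A := ⟨_, rfl⟩
  obtain ⟨β, hβ⟩ : ∃ β : ℝ, β = A + 3 / 2 * |Real.log c0| := ⟨_, rfl⟩
  obtain ⟨B, hB⟩ : ∃ B : ℝ, B = α / (μ - 1) := ⟨_, rfl⟩
  have hα0 : 0 ≤ α := by rw [hα]; positivity
  have hβ0 : 0 ≤ β := by rw [hβ]; positivity
  have hμ1 : 0 < μ - 1 := by linarith
  have hB0 : 0 ≤ B := by rw [hB]; positivity
  have hB1 : α ≤ B * (μ - 1) := by
    rw [hB, div_mul_cancel₀ _ hμ1.ne']
  obtain ⟨C, hC0, hC⟩ := M2_le μ α β B hμ hα0 hβ0 hB0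
  refine ⟨C, hC0, ?_⟩
  rintro J x hM b hb L m k s hs ⟨E, hE, hdig⟩ ⟨c, hc⟩
  obtain ⟨k0, K, hk0, hK, hpar⟩ := params m
  have hbR : (2 : ℝ) ≤ b := by exact_mod_cast hb
  have hpar1 : M1 b m k0 K ≤ m + 15 * err m := hpar b hbR
  have hM1 := M1_ge b m k0 K hb
  have hm0 : (0 : ℝ) ≤ m := Nat.cast_nonneg m
  have hk00 : (0 : ℝ) ≤ k0 := Nat.cast_nonneg k0
  have hM10 : 0 ≤ M1 b m k0 K := by linarith
  have hfin := hC m (M1 b m k0 K) hM10 hpar1
  have hsum : (1 : ℝ) ≤ ∑ i ∈ range (k + 1), μ ^ (i + 1) := by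
    rw [Finset.sum_range_succ']
    have : 0 ≤ ∑ i ∈ range k, μ ^ (i + 1 + 1) := Finset.sum_nonneg fun i _ => by positivity
    simp only [zero_add, pow_one]
    linarith
  have herr := err_ge m
  have hfin0 : 0 ≤ (m : ℝ) + C * err m := by positivity
  have hM1le : M1 b m k0 K + 1 ≤ M2 μ α β B (M1 b m k0 K) + β := by
    unfold M2
    have h1 : 0 ≤ Real.log (1 + M1 b m k0 K) := Real.log_nonneg (by linarith)
    have h2 : 0 ≤ Real.log (2 + μ + α + β) := Real.log_nonneg (by linarith)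
    have h3 := mul_nonneg hB0 h1
    have h4 := mul_nonneg hB0 h2
    linarith
  have htriv : (L : ℝ) ≤ M1 b m k0 K + 1 →
      (L : ℝ) ≤ (∑ i ∈ range (k + 1), μ ^ (i + 1)) * (m + C * err m) := by
    intro h
    have : (m : ℝ) + C * err m ≤ (∑ i ∈ range (k + 1), μ ^ (i + 1)) * (m + C * err m) := by
      nlinarith
    linarith
  by_cases hL : m + k0 ≤ L
  swap
  · apply htriv
    have : (L : ℝ) ≤ m + k0 := by exact_mod_cast (by omega : L ≤ m + k0)
    linarith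
  by_cases hbig : (m + k0 + 1) * ((m + 1 + k0) * b) ^ K * b < b ^ (L - (m + k0))
  swap
  · apply htriv
    push Not at hbig
    have hlb0 : 0 < Real.log b := Real.log_pos (by linarith)
    have hb0 : (0 : ℝ) < b := by linarith
    have h1 : ((b : ℝ) ^ (L - (m + k0))) ≤
        ((m : ℝ) + k0 + 1) * (((m : ℝ) + 1 + k0) * b) ^ K * b := by exact_mod_cast hbig
    have h2 := Real.log_le_log (by positivity) h1
    rw [Real.log_pow, Real.log_mul (by positivity) (by positivity)] at h2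
    have h3 : ((L - (m + k0) : ℕ) : ℝ) = L - (m + k0) := by
      rw [Nat.cast_sub hL]; push_cast; ring
    rw [h3] at h2
    have h4 : (L : ℝ) - (m + k0) ≤
        Real.log (((m : ℝ) + k0 + 1) * (((m : ℝ) + 1 + k0) * b) ^ K) / Real.log b + 1 := by
      rw [← sub_le_iff_le_add, le_div_iff₀ hlb0]
      linarith
    unfold M1
    linarith
  -- truncate
  obtain ⟨a, ha⟩ : ∃ a : Fin J → ℕ → ℤ, a = fun j i => if i < L then s j i else 0 := ⟨_, rfl⟩
  have ha1 : ∀ j i, i < L → a j i = s j i := by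
    intro j i hi
    rw [ha]; simp [hi]
  have ha2 : ∀ j i, |a j i| ≤ b := by
    intro j i
    by_cases hi : i < L
    · rw [ha1 j i hi]; exact hs j i hi
    · rw [ha]; simp [hi]
  obtain ⟨t, ht0, htd, htH, htr⟩ := hSM J a b (by omega) ha2 m k0 (L - (m + k0)) L K hk0 hK
    (by omega) c (fun j i hi => by
      rw [ha1 j _ hi, hc j i hi]
      refine Finset.sum_congr rfl fun l hl => ?_
      rw [mem_range] at hl
      rw [ha1 j _ (by omega)])
  obtain ⟨t', htd', htH', htr', ht0'⟩ := hDE J a b b (((m + 1 + k0) * b) ^ K) (m + k0)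
    (L - (m + k0)) hb ha2 hbig t htd ht0 htH htr
  have hgap := gap hAP J x μ c0 A hμ hc0 hA0 hM b hb m k0 L K hL a t' htd' htH' htr' ht0'
  rw [← hα, ← hβ] at hgap
  have hmain := rec_final μ α β (M1 b m k0 K) B hμ hα0 hβ0 hM10 hB1 hB0 E L k hE
    (fun u v huv hvL hE' => hgap u v huv hvL (fun i h1 h2 j => by
      rw [ha1 j i (by omega)]
      refine hdig i (by omega) (fun hi => ?_) j
      rcases hE' i hi with h | h <;> omega))
  refine hmain.trans (mul_le_mul_of_nonneg_left hfin (by linarith))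

/-- the same without hypotheses -/
theorem uniform (μ c0 A : ℝ) (hμ : 1 < μ) (hc0 : 0 < c0) (hA0 : 0 ≤ A) :
    ∃ C : ℝ, 0 < C ∧ ∀ (J : ℕ) (x : Fin J → ℝ), Meas J x μ c0 A →
      ∀ b : ℕ, 2 ≤ b → ∀ (L m k : ℕ) (s : Fin J → ℕ → ℤ),
      (∀ j, ∀ i < L, |s j i| ≤ b) →
      (∃ E : Finset ℕ, E.card ≤ k ∧ ∀ i < L, i ∉ E → ∀ j, s j i = dig (x j) b (i + 1)) →
      (∃ c : ℕ → ℚ, ∀ j i, i + m < L → (s j (i + m) : ℚ) = ∑ l ∈ range m, c l * (s j (i + l) : ℚ)) →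
      (L : ℝ) ≤ (∑ i ∈ range (k + 1), μ ^ (i + 1)) * (m + C * err m) :=
  generalU Pool.Agent.W928.JL.small Pool.Agent.W639.JL.desc Pool.Agent.W45.JL.approx μ c0 A hμ
    hc0 hA0

end Pool.Agent.Y928.JL
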