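import Mathlib
import Pool.Agent.Y928.JL.GenU

/-!
# Joint linear complexity of the digits of a family of numbers

From a measure of simultaneous approximation for all large subfamilies of a finite family of real
numbers we deduce lower bounds for the joint linear complexity of their digits. Used for the odd zeta
values and for the values of periodic Dirichlet series at even integers.
-/

set_option autoImplicit false

namespace Pool.Agent.Y928.JL.Fam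

open Finset Polynomial

/-- the `i`-th digit of `x` after the point in base `b` -/
noncomputable def digit (b : ℕ) (x : ℝ) (i : ℕ) : ℤ := ⌊x * (b : ℝ) ^ i⌋ % (b : ℤ)

/-- The terms `s_1, …, s_L` satisfy the linear recurrence
`s_(i+m) = c_0 s_i + … + c_(m-1) s_(i+m-1)` for `1 ≤ i ≤ L - m`. -/
def Recurrence (s : ℕ → ℤ) (c : ℕ → ℚ) (L m : ℕ) : Prop :=
  ∀ i : ℕ, 1 ≤ i → i + m ≤ L → (s (i + m) : ℚ) = ∑ j ∈ range m, c j * (s (i + j) : ℚ)

/-- the linear complexity of the first `L` digits of `x` in base `b` -/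
noncomputable def complexity (b : ℕ) (x : ℝ) (L : ℕ) : ℕ :=
  sInf {m | ∃ c : ℕ → ℚ, Recurrence (digit b x) c L m}

/-- the joint `k`-error linear complexity of the first `L` digits of the numbers `x i`, `i ∈ T`, in
base `b`: the least order of a common recurrence for the first `L` terms of sequences `s i` of
integers between `-b` and `b` which agree with the digits of the numbers `x i` in all but at most
`k` of the places `1, …, L` -/
noncomputable def jointComplexity (b : ℕ) (T : Finset ℕ) (x : ℕ → ℝ) (k L : ℕ) : ℕ :=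
  sInf {m | ∃ (s : ℕ → ℕ → ℤ) (c : ℕ → ℚ) (E : Finset ℕ), E.card ≤ k ∧ ∀ i ∈ T,
    (∀ l, |s i l| ≤ b) ∧ (∀ l ∈ Icc 1 L, l ∉ E → s i l = digit b (x i) l) ∧
    Recurrence (s i) c L m}

/-- the function `m + C √((m+1) log (m+2))` -/
noncomputable def F (C : ℝ) (m : ℕ) : ℝ :=
  m + C * Real.sqrt (((m : ℝ) + 1) * Real.log ((m : ℝ) + 2))

/-! ### the shift operator -/

/-- the shift -/
def S : (ℕ → ℚ) →ₗ[ℚ] (ℕ → ℚ) where
  toFun a i := a (i + 1)
  map_add' _ _ := rfl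
  map_smul' _ _ := rfl

lemma S_pow (a : ℕ → ℚ) (j i : ℕ) : (S ^ j) a i = a (i + j) := by
  induction j generalizing i with
  | zero => simp
  | succ j ih =>
    rw [pow_succ', Module.End.mul_apply]
    change ((S ^ j) a) (i + 1) = _
    rw [ih]
    congr 1
    ring

lemma aeval_S (P : ℚ[X]) (a : ℕ → ℚ) (i N : ℕ) (h : P.natDegree < N) :
    (aeval S P) a i = ∑ j ∈ range N, P.coeff j * a (i + j) := by
  rw [aeval_eq_sum_range' h, LinearMap.sum_apply, Finset.sum_apply]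
  refine Finset.sum_congr rfl fun j _ => ?_
  rw [LinearMap.smul_apply, Pi.smul_apply, S_pow, smul_eq_mul]

/-- the polynomial of a recurrence -/
noncomputable def poly (c : ℕ → ℚ) (m : ℕ) : ℚ[X] := X ^ m - ∑ j ∈ range m, C (c j) * X ^ j

lemma low_degree (c : ℕ → ℚ) (m : ℕ) : (∑ j ∈ range m, C (c j) * X ^ j : ℚ[X]).degree < m := by
  refine (degree_sum_le _ _).trans_lt ?_
  rw [Finset.sup_lt_iff (by exact_mod_cast WithBot.bot_lt_coe m)]
  intro j hj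
  refine (degree_C_mul_X_pow_le _ _).trans_lt ?_
  exact_mod_cast mem_range.mp hj

lemma poly_monic (c : ℕ → ℚ) (m : ℕ) : (poly c m).Monic := monic_X_pow_sub (low_degree c m)

lemma poly_natDegree (c : ℕ → ℚ) (m : ℕ) : (poly c m).natDegree = m := by
  apply natDegree_eq_of_degree_eq_some
  unfold poly
  rw [degree_sub_eq_left_of_degree_lt, degree_X_pow]
  rw [degree_X_pow]
  exact low_degree c m

lemma poly_coeff (c : ℕ → ℚ) (m j : ℕ) (hj : j < m) : (poly c m).coeff j = - c j := by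
  unfold poly
  rw [coeff_sub, coeff_X_pow, if_neg hj.ne, finsetSum_coeff, zero_sub]
  congr 1
  rw [Finset.sum_eq_single j]
  · rw [coeff_C_mul_X_pow, if_pos rfl]
  · intro l _ hl
    rw [coeff_C_mul_X_pow, if_neg hl.symm]
  · intro h
    exact absurd (mem_range.mpr hj) h

lemma poly_coeff_top (c : ℕ → ℚ) (m : ℕ) : (poly c m).coeff m = 1 := by
  have h := poly_monic c m
  rw [Monic, leadingCoeff, poly_natDegree] at h
  exact h

/-- a recurrence in terms of the shift -/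
lemma rec_iff (s : ℕ → ℤ) (c : ℕ → ℚ) (L m : ℕ) :
    Recurrence s c L m ↔
      ∀ i : ℕ, 1 ≤ i → i + m ≤ L → (aeval S (poly c m)) (fun i => (s i : ℚ)) i = 0 := by
  unfold Recurrence
  refine forall_congr' fun i => forall_congr' fun h1 => forall_congr' fun h2 => ?_
  rw [aeval_S _ _ i (m + 1) (by rw [poly_natDegree]; omega), Finset.sum_range_succ, poly_coeff_top,
    one_mul]
  have e : ∑ j ∈ range m, (poly c m).coeff j * (s (i + j) : ℚ) =
      - ∑ j ∈ range m, c j * (s (i + j) : ℚ) := by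
    rw [← Finset.sum_neg_distrib]
    refine Finset.sum_congr rfl fun j hj => ?_
    rw [poly_coeff c m j (mem_range.mp hj)]
    ring
  rw [e]
  constructor
  · intro h
    rw [h]; ring
  · intro h
    linarith

/-- if `P(S) a` vanishes on `1, …, L - m` then `Q(S) P(S) a` vanishes on `1, …, L - m - m'` -/
lemma mul_vanish (P Q : ℚ[X]) (a : ℕ → ℚ) (L m m' : ℕ) (hQ : Q.natDegree = m')
    (h : ∀ i : ℕ, 1 ≤ i → i + m ≤ L → (aeval S P) a i = 0) :
    ∀ i : ℕ, 1 ≤ i → i + (m + m') ≤ L → (aeval S (Q * P)) a i = 0 := by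
  intro i h1 h2
  rw [map_mul, Module.End.mul_apply, aeval_S _ _ i (m' + 1) (by omega)]
  refine Finset.sum_eq_zero fun j hj => ?_
  rw [mem_range] at hj
  rw [h (i + j) (by omega) (by omega), mul_zero]


/-- a common recurrence of a family -/
theorem common_fam (T : Finset ℕ) (s : ℕ → ℕ → ℤ) (c : ℕ → ℕ → ℚ) (m : ℕ → ℕ) (L : ℕ)
    (h : ∀ i ∈ T, Recurrence (s i) (c i) L (m i)) :
    ∃ d : ℕ → ℚ, ∀ i ∈ T, Recurrence (s i) d L (∑ i ∈ T, m i) := by
  classical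
  obtain ⟨R, hR⟩ : ∃ R : ℚ[X], R = ∏ i ∈ T, poly (c i) (m i) := ⟨_, rfl⟩
  have hRm : R.Monic := by
    rw [hR]; exact monic_prod_of_monic _ _ fun i _ => poly_monic _ _
  have hdeg : ∀ T' : Finset ℕ, (∏ i ∈ T', poly (c i) (m i)).natDegree = ∑ i ∈ T', m i := by
    intro T'
    rw [natDegree_prod_of_monic _ _ fun i _ => poly_monic _ _]
    exact Finset.sum_congr rfl fun i _ => poly_natDegree _ _
  have hRd : R.natDegree = ∑ i ∈ T, m i := by rw [hR]; exact hdeg T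
  refine ⟨fun j => - R.coeff j, fun i hi => ?_⟩
  have h1 := (rec_iff _ _ _ _).mp (h i hi)
  have h2 := mul_vanish (poly (c i) (m i)) (∏ j ∈ T.erase i, poly (c j) (m j)) _ L (m i)
    (∑ j ∈ T.erase i, m j) (hdeg _) h1
  rw [Finset.prod_erase_mul _ _ hi, ← hR, Finset.add_sum_erase _ _ hi] at h2
  intro l hl hlL
  have h3 := h2 l hl hlL
  rw [aeval_S _ _ l ((∑ i ∈ T, m i) + 1) (by omega), Finset.sum_range_succ] at h3
  have h4 : R.coeff (∑ i ∈ T, m i) = 1 := by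
    have h5 := hRm
    rw [Monic, leadingCoeff, hRd] at h5
    exact h5
  rw [h4, one_mul] at h3
  have e : ∑ j ∈ range (∑ i ∈ T, m i), - R.coeff j * (s i (l + j) : ℚ) =
      - ∑ j ∈ range (∑ i ∈ T, m i), R.coeff j * (s i (l + j) : ℚ) := by
    rw [← Finset.sum_neg_distrib]
    exact Finset.sum_congr rfl fun j _ => by ring
  rw [e]
  linarith

lemma dig_abs (b : ℕ) (hb : 2 ≤ b) (x : ℝ) (i : ℕ) : |digit b x i| ≤ b := by
  unfold digit
  have hb0 : (0 : ℤ) < b := by exact_mod_cast (by omega : 0 < b)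
  rw [abs_of_nonneg (Int.emod_nonneg _ hb0.ne')]
  exact (Int.emod_lt_of_pos _ hb0).le

lemma F_mono {C : ℝ} (hC : 0 ≤ C) {m n : ℕ} (h : m ≤ n) : F C m ≤ F C n := by
  unfold F
  have h1 : (m : ℝ) ≤ n := by exact_mod_cast h
  have hm : (0 : ℝ) ≤ m := Nat.cast_nonneg m
  have h2 : Real.log ((m : ℝ) + 2) ≤ Real.log ((n : ℝ) + 2) :=
    Real.log_le_log (by positivity) (by linarith)
  have h3 : 0 ≤ Real.log ((m : ℝ) + 2) := Real.log_nonneg (by linarith)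
  have h4 : ((m : ℝ) + 1) * Real.log ((m : ℝ) + 2) ≤ ((n : ℝ) + 1) * Real.log ((n : ℝ) + 2) :=
    mul_le_mul (by linarith) h2 h3 (by linarith)
  have h5 := mul_le_mul_of_nonneg_left (Real.sqrt_le_sqrt h4) hC
  linarith

lemma F_mono' {C C' : ℝ} (h : C ≤ C') (m : ℕ) : F C m ≤ F C' m := by
  unfold F
  have := mul_le_mul_of_nonneg_right h (Real.sqrt_nonneg (((m : ℝ) + 1) * Real.log ((m : ℝ) + 2)))
  linarith

lemma F_two {C : ℝ} (hC : 0 ≤ C) (m : ℕ) : F C (m + m) ≤ 2 * F C m := by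
  unfold F
  have hm : (0 : ℝ) ≤ m := Nat.cast_nonneg m
  have hl : 0 ≤ Real.log ((m : ℝ) + 2) := Real.log_nonneg (by linarith)
  have h1 : Real.log (((m + m : ℕ) : ℝ) + 2) ≤ 2 * Real.log ((m : ℝ) + 2) := by
    have h2 : (2 : ℝ) * Real.log ((m : ℝ) + 2) = Real.log (((m : ℝ) + 2) ^ 2) := by
      rw [Real.log_pow]; norm_num
    rw [h2]
    apply Real.log_le_log (by positivity)
    push_cast
    nlinarith
  have h3 : (((m + m : ℕ) : ℝ) + 1) * Real.log (((m + m : ℕ) : ℝ) + 2) ≤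
      2 ^ 2 * (((m : ℝ) + 1) * Real.log ((m : ℝ) + 2)) := by
    have h4 : (((m + m : ℕ) : ℝ) + 1) ≤ 2 * ((m : ℝ) + 1) := by push_cast; linarith
    have h5 : 0 ≤ Real.log (((m + m : ℕ) : ℝ) + 2) :=
      Real.log_nonneg (by push_cast; linarith)
    calc (((m + m : ℕ) : ℝ) + 1) * Real.log (((m + m : ℕ) : ℝ) + 2) ≤
        (2 * ((m : ℝ) + 1)) * (2 * Real.log ((m : ℝ) + 2)) :=
          mul_le_mul h4 h1 h5 (by positivity)
      _ = _ := by ring
  have h6 := Real.sqrt_le_sqrt h3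
  have e6 : Real.sqrt (2 ^ 2 * (((m : ℝ) + 1) * Real.log ((m : ℝ) + 2))) =
      2 * Real.sqrt (((m : ℝ) + 1) * Real.log ((m : ℝ) + 2)) := by
    rw [Real.sqrt_mul (by norm_num), Real.sqrt_sq (by norm_num)]
  rw [e6] at h6
  have h7 := mul_le_mul_of_nonneg_left h6 hC
  have h8 : ((m + m : ℕ) : ℝ) = 2 * m := by push_cast; ring
  rw [h8] at h7 ⊢
  linarith

lemma attained (b : ℕ) (x : ℝ) (L : ℕ) :
    ∃ c : ℕ → ℚ, Recurrence (digit b x) c L (complexity b x L) := by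
  refine Nat.sInf_mem (s := {m | ∃ c : ℕ → ℚ, Recurrence (digit b x) c L m}) ?_
  exact ⟨L, fun _ => 0, fun i h1 h2 => by omega⟩

lemma F_linear (C ε : ℝ) (hC : 0 < C) (hε : 0 < ε) :
    ∃ K : ℝ, 0 ≤ K ∧ ∀ m : ℕ, F C m ≤ (1 + ε) * m + K := by
  -- `C √(a b) ≤ (ε/2) a + C² b / (2 ε)` with `b = log (m + 2)`
  obtain ⟨δ, hδ⟩ : ∃ δ : ℝ, δ = ε ^ 2 / C ^ 2 := ⟨_, rfl⟩
  have hδ0 : 0 < δ := by rw [hδ]; positivity
  obtain ⟨K1, hK1⟩ : ∃ K1 : ℝ, K1 = |Real.log δ| := ⟨_, rfl⟩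
  refine ⟨ε + 1 * ε + C ^ 2 / (2 * ε) * (|Real.log δ|), by positivity, fun m => ?_⟩
  unfold F
  have hm : (0 : ℝ) ≤ m := Nat.cast_nonneg m
  obtain ⟨a, ha⟩ : ∃ a : ℝ, a = (m : ℝ) + 1 := ⟨_, rfl⟩
  obtain ⟨l, hl⟩ : ∃ l : ℝ, l = Real.log ((m : ℝ) + 2) := ⟨_, rfl⟩
  have hl0 : 0 ≤ l := by rw [hl]; exact Real.log_nonneg (by linarith)
  have ha0 : 0 < a := by rw [ha]; positivity
  rw [← ha, ← hl]
  have h1 : C * Real.sqrt (a * l) ≤ ε / 2 * a + C ^ 2 / (2 * ε) * l := by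
    have h2 : 0 ≤ ε / 2 * a + C ^ 2 / (2 * ε) * l := by positivity
    have h3 : C * Real.sqrt (a * l) = Real.sqrt (C ^ 2 * (a * l)) := by
      have e3 : Real.sqrt (C ^ 2 * (a * l)) = C * Real.sqrt (a * l) := by
        rw [Real.sqrt_mul (by positivity), Real.sqrt_sq hC.le]
      exact e3.symm
    rw [h3]
    apply Real.sqrt_le_iff.mpr
    refine ⟨h2, ?_⟩
    have h4 : (ε / 2 * a + C ^ 2 / (2 * ε) * l) ^ 2 - C ^ 2 * (a * l) =
        (ε / 2 * a - C ^ 2 / (2 * ε) * l) ^ 2 := by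
      field_simp
      ring
    nlinarith [sq_nonneg (ε / 2 * a - C ^ 2 / (2 * ε) * l)]
  have h5 : l ≤ δ * ((m : ℝ) + 2) + |Real.log δ| := by
    have h6 : Real.log (δ * ((m : ℝ) + 2)) ≤ δ * ((m : ℝ) + 2) - 1 :=
      Real.log_le_sub_one_of_pos (by positivity)
    rw [Real.log_mul hδ0.ne' (by positivity)] at h6
    have h7 := neg_abs_le (Real.log δ)
    rw [hl]
    linarith
  have h8 : C ^ 2 / (2 * ε) * l ≤ C ^ 2 / (2 * ε) * (δ * ((m : ℝ) + 2) + |Real.log δ|) :=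
    mul_le_mul_of_nonneg_left h5 (by positivity)
  have h9 : C ^ 2 / (2 * ε) * (δ * ((m : ℝ) + 2)) = ε / 2 * ((m : ℝ) + 2) := by
    rw [hδ]
    field_simp
  rw [mul_add, h9] at h8
  rw [ha] at h1 ⊢
  nlinarith


/-- a positive lower bound of finitely many positive numbers -/
lemma exists_pos_le {α : Type*} (A : Finset α) (δ : α → ℝ) (h : ∀ x ∈ A, 0 < δ x) :
    ∃ c : ℝ, 0 < c ∧ ∀ x ∈ A, c ≤ δ x := by
  rcases A.eq_empty_or_nonempty with h0 | h0
  · exact ⟨1, one_pos, fun x hx => by rw [h0] at hx; simp at hx⟩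
  · obtain ⟨x, hx, hmin⟩ := Finset.exists_min_image A δ h0
    exact ⟨δ x, h x hx, hmin⟩

/-- all large subfamilies of the family satisfy a measure of simultaneous approximation with
exponent `1/D` -/
def Good (I : Finset ℕ) (x : ℕ → ℝ) (D : ℕ) (K : ℝ) (q0 : ℕ) : Prop :=
  ∀ q : ℕ, q0 ≤ q → K ≤ (Set.ncard {i : ℕ | i ∈ I ∧ ∀ p : ℤ,
    (q : ℝ) ^ (-(1 / (D : ℝ))) ≤ |(q : ℝ) * x i - p|} : ℝ)

lemma exists_good {I : Finset ℕ} {x : ℕ → ℝ} {D : ℕ} {K : ℝ} {q0 : ℕ} (h : Good I x D K q0)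
    {T : Finset ℕ} (hTI : T ⊆ I) (hT : ((I \ T).card : ℝ) < K) {q : ℕ} (hq : q0 ≤ q) :
    ∃ i ∈ T, ∀ p : ℤ, (q : ℝ) ^ (-(1 / (D : ℝ))) ≤ |(q : ℝ) * x i - p| := by
  classical
  by_contra hcon
  push Not at hcon
  have h1 := h q hq
  have h2 : {i : ℕ | i ∈ I ∧ ∀ p : ℤ, (q : ℝ) ^ (-(1 / (D : ℝ))) ≤ |(q : ℝ) * x i - p|} ⊆
      ((I \ T : Finset ℕ) : Set ℕ) := by
    rintro i ⟨hi, hp⟩
    rw [Finset.mem_coe, mem_sdiff]
    refine ⟨hi, fun hiT => ?_⟩
    obtain ⟨p, hp'⟩ := hcon i hiT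
    exact absurd (hp p) (not_le.mpr hp')
  have h3 := Set.ncard_le_ncard h2 (Finset.finite_toSet _)
  rw [Set.ncard_coe_finset] at h3
  have h4 : (Set.ncard {i : ℕ | i ∈ I ∧ ∀ p : ℤ,
      (q : ℝ) ^ (-(1 / (D : ℝ))) ≤ |(q : ℝ) * x i - p|} : ℝ) ≤ ((I \ T).card : ℝ) := by
    exact_mod_cast h3
  linarith

/-- the measure of a subfamily -/
theorem measure_of {I : Finset ℕ} {x : ℕ → ℝ} {D : ℕ} {K : ℝ} {q0 : ℕ} (hD : 1 ≤ D)
    (h : Good I x D K q0) {T : Finset ℕ} (hTI : T ⊆ I) (hT : ((I \ T).card : ℝ) < K) :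
    ∃ c : ℝ, 0 < c ∧ ∀ q : ℕ, 1 ≤ q → ∀ p : ℕ → ℤ, ∃ i ∈ T,
      c ≤ (q : ℝ) ^ (1 / (D : ℝ)) * |(q : ℝ) * x i - p i| := by
  classical
  have hD0 : (0 : ℝ) < D := by exact_mod_cast (by omega : 0 < D)
  -- small denominators
  have hsmall : ∀ q : ℕ, 1 ≤ q → ∃ i ∈ T, ∀ p : ℤ, 0 < |(q : ℝ) * x i - p| := by
    intro q hq
    obtain ⟨i, hi, hp⟩ := exists_good h hTI hT (q := q * (q0 + 1)) (by nlinarith)
    refine ⟨i, hi, fun p => ?_⟩
    rw [abs_pos]
    intro h0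
    have h1 := hp (p * (q0 + 1))
    have h2 : ((q * (q0 + 1) : ℕ) : ℝ) * x i - ((p * (q0 + 1) : ℤ) : ℝ) = 0 := by
      push_cast
      have : (q : ℝ) * x i = p := by linarith
      calc (q : ℝ) * (q0 + 1) * x i - p * (q0 + 1) = (q * x i - p) * (q0 + 1) := by ring
        _ = 0 := by rw [h0, zero_mul]
    rw [h2, abs_zero] at h1
    have h3 : (0 : ℝ) < ((q * (q0 + 1) : ℕ) : ℝ) ^ (-(1 / (D : ℝ))) := by
      apply Real.rpow_pos_of_pos
      exact_mod_cast Nat.mul_pos hq (Nat.succ_pos _)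
    linarith
  choose! ix hix hixp using hsmall
  obtain ⟨c, hc0, hc⟩ := exists_pos_le (Finset.Icc 1 q0)
    (fun q => |(q : ℝ) * x (ix q) - round ((q : ℝ) * x (ix q))|)
    (fun q hq => hixp q (Finset.mem_Icc.mp hq).1 _)
  refine ⟨min c 1, lt_min hc0 one_pos, fun q hq p => ?_⟩
  have hqR : (1 : ℝ) ≤ q := by exact_mod_cast hq
  rcases le_or_gt q q0 with hqq | hqq
  · refine ⟨ix q, hix q hq, ?_⟩
    have h1 := hc q (Finset.mem_Icc.mpr ⟨hq, hqq⟩)
    have h2 := round_le ((q : ℝ) * x (ix q)) (p (ix q))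
    have h3 : (1 : ℝ) ≤ (q : ℝ) ^ (1 / (D : ℝ)) := Real.one_le_rpow hqR (by positivity)
    calc min c 1 ≤ c := min_le_left _ _
      _ ≤ |(q : ℝ) * x (ix q) - p (ix q)| := h1.trans h2
      _ ≤ _ := le_mul_of_one_le_left (abs_nonneg _) h3
  · obtain ⟨i, hi, hp⟩ := exists_good h hTI hT hqq.le
    refine ⟨i, hi, ?_⟩
    have h1 := hp (p i)
    rw [Real.rpow_neg (by linarith)] at h1
    have h2 : 0 < (q : ℝ) ^ (1 / (D : ℝ)) := Real.rpow_pos_of_pos (by linarith) _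
    have h3 := mul_le_mul_of_nonneg_left h1 h2.le
    rw [mul_inv_cancel₀ h2.ne'] at h3
    exact (min_le_right _ _).trans h3

/-- **The joint linear complexity of large subfamilies.** -/
theorem joint_family {I : Finset ℕ} {x : ℕ → ℝ} {D : ℕ} {K : ℝ} {q0 : ℕ} (hD : 1 ≤ D)
    (h : Good I x D K q0) :
    ∃ C : ℝ, 0 < C ∧ ∀ T ⊆ I, ((I \ T).card : ℝ) < K → ∀ b : ℕ, 2 ≤ b → ∀ (k L m : ℕ)
      (s : ℕ → ℕ → ℤ) (c : ℕ → ℚ) (E : Finset ℕ), E.card ≤ k → (∀ i ∈ T, (∀ l, |s i l| ≤ b) ∧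
        (∀ l ∈ Icc 1 L, l ∉ E → s i l = digit b (x i) l) ∧ Recurrence (s i) c L m) →
      (L : ℝ) ≤ (∑ i ∈ range (k + 1), (1 + 1 / (D : ℝ)) ^ (i + 1)) * F C m := by
  classical
  have hD0 : (0 : ℝ) < D := by exact_mod_cast (by omega : 0 < D)
  have hex : ∀ T : Finset ℕ, T ∈ I.powerset.filter (fun T => ((I \ T).card : ℝ) < K) →
      ∃ c : ℝ, 0 < c ∧ ∀ q : ℕ, 1 ≤ q → ∀ p : ℕ → ℤ, ∃ i ∈ T,
      c ≤ (q : ℝ) ^ (1 / (D : ℝ)) * |(q : ℝ) * x i - p i| := by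
    intro T hT
    rw [Finset.mem_filter, Finset.mem_powerset] at hT
    exact measure_of hD h hT.1 hT.2
  choose! cT hcT0 hcT using hex
  obtain ⟨c0, hc0, hc0le⟩ := exists_pos_le (I.powerset.filter fun T => ((I \ T).card : ℝ) < K) cT
    hcT0
  obtain ⟨C, hC0, hC⟩ := Pool.Agent.Y928.JL.uniform (1 + 1 / (D : ℝ)) c0 0
    (by have : 0 < 1 / (D : ℝ) := by positivity
        linarith) hc0 le_rfl
  refine ⟨C, hC0, fun T hTI hT b hb k L m s c E hE hs => ?_⟩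
  have hmem : T ∈ I.powerset.filter fun T => ((I \ T).card : ℝ) < K := by
    rw [Finset.mem_filter, Finset.mem_powerset]
    exact ⟨hTI, hT⟩
  obtain ⟨e⟩ : Nonempty (Fin T.card ≃ T) := ⟨(Finset.equivFin T).symm⟩
  have hmeas : Pool.Agent.W47.JL.Meas T.card (fun j => x (e j)) (1 + 1 / (D : ℝ)) c0 0 := by
    intro q hq p
    obtain ⟨i, hi, hpi⟩ := hcT T hmem q hq (fun i => if hi : i ∈ T then p (e.symm ⟨i, hi⟩) else 0)
    refine ⟨e.symm ⟨i, hi⟩, ?_⟩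
    rw [dif_pos hi] at hpi
    have h1 := hc0le T hmem
    have e1 : x (e (e.symm ⟨i, hi⟩)) = x i := by rw [Equiv.apply_symm_apply]
    rw [Real.rpow_zero, mul_one, show 1 + 1 / (D : ℝ) - 1 = 1 / (D : ℝ) by ring]
    beta_reduce
    rw [e1]
    exact h1.trans hpi
  have h1 := hC T.card (fun j => x (e j)) hmeas b hb L m k (fun j l => s (e j) (l + 1))
    (fun j l _ => (hs (e j) (e j).2).1 _)
    ⟨E.image (· - 1), Finset.card_image_le.trans hE, by
      intro l hl hlE j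
      refine (hs (e j) (e j).2).2.1 (l + 1) (Finset.mem_Icc.mpr ⟨by omega, by omega⟩) ?_
      intro hE'
      apply hlE
      rw [mem_image]
      exact ⟨l + 1, hE', by omega⟩⟩
    ⟨c, by
      intro j i hi
      have h1 := (hs (e j) (e j).2).2.2 (i + 1) (by omega) (by omega)
      rw [show i + m + 1 = i + 1 + m by ring, h1]
      exact Finset.sum_congr rfl fun l _ => by rw [show i + l + 1 = i + 1 + l by ring]⟩
  exact h1

lemma joint_attained (b : ℕ) (hb : 2 ≤ b) (T : Finset ℕ) (x : ℕ → ℝ) (k L : ℕ) :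
    ∃ (s : ℕ → ℕ → ℤ) (c : ℕ → ℚ) (E : Finset ℕ), E.card ≤ k ∧ ∀ i ∈ T,
    (∀ l, |s i l| ≤ b) ∧ (∀ l ∈ Icc 1 L, l ∉ E → s i l = digit b (x i) l) ∧
    Recurrence (s i) c L (jointComplexity b T x k L) := by
  refine Nat.sInf_mem (s := {m | ∃ (s : ℕ → ℕ → ℤ) (c : ℕ → ℚ) (E : Finset ℕ), E.card ≤ k ∧ ∀ i ∈ T,
    (∀ l, |s i l| ≤ b) ∧ (∀ l ∈ Icc 1 L, l ∉ E → s i l = digit b (x i) l) ∧
    Recurrence (s i) c L m}) ?_
  exact ⟨L, fun i => digit b (x i), fun _ => 0, ∅, by simp, fun i _ => ⟨dig_abs b hb _,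
    fun l _ _ => rfl, fun i h1 h2 => by omega⟩⟩

/-- **Many numbers of the family have large linear complexity.** -/
theorem count_family {I : Finset ℕ} {x : ℕ → ℝ} {D : ℕ} {K : ℝ} {q0 : ℕ} (hD : 1 ≤ D)
    (h : Good I x D K q0) :
    ∃ C : ℝ, 0 < C ∧ ∀ b : ℕ, 2 ≤ b → ∀ L m : ℕ, (1 + 1 / (D : ℝ)) * F C (I.card * m) < L →
      K ≤ (I.filter fun i => m < complexity b (x i) L).card := by
  classical
  obtain ⟨C, hC0, hC⟩ := joint_family hD h
  refine ⟨C, hC0, fun b hb L m hL => ?_⟩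
  by_contra hcon
  push Not at hcon
  obtain ⟨T, hT⟩ : ∃ T, T = I.filter fun i => ¬ m < complexity b (x i) L := ⟨_, rfl⟩
  have hTI : T ⊆ I := by rw [hT]; exact Finset.filter_subset _ _
  have hcompl : I \ T = I.filter fun i => m < complexity b (x i) L := by
    rw [hT]
    ext i
    simp only [mem_sdiff, mem_filter, not_and, not_not]
    tauto
  have hTc : ((I \ T).card : ℝ) < K := by rw [hcompl]; exact hcon
  choose cc hcc using fun i => attained b (x i) L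
  obtain ⟨d, hd⟩ := common_fam T (fun i => digit b (x i)) cc (fun i => complexity b (x i) L) L
    (fun i _ => hcc i)
  have h1 := hC T hTI hTc b hb 0 L (∑ i ∈ T, complexity b (x i) L) (fun i => digit b (x i)) d ∅
    (by simp) (fun i hi => ⟨dig_abs b hb _, fun l _ _ => rfl, hd i hi⟩)
  rw [Finset.sum_range_one, zero_add, pow_one] at h1
  have h2 : ∑ i ∈ T, complexity b (x i) L ≤ I.card * m := by
    calc ∑ i ∈ T, complexity b (x i) L ≤ ∑ _i ∈ T, m := by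
          refine Finset.sum_le_sum fun i hi => ?_
          rw [hT, mem_filter] at hi
          omega
      _ = T.card * m := by rw [Finset.sum_const, smul_eq_mul]
      _ ≤ I.card * m := Nat.mul_le_mul_right _ (Finset.card_le_card hTI)
  have h3 := F_mono hC0.le h2
  have hD0 : (0 : ℝ) < D := by exact_mod_cast (by omega : 0 < D)
  have h4 : 0 ≤ 1 + 1 / (D : ℝ) := by positivity
  have h5 := mul_le_mul_of_nonneg_left h3 h4
  linarith

/-- the same at every large scale, with an explicit linear bound -/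
theorem count_linear {I : Finset ℕ} {x : ℕ → ℝ} {D : ℕ} {K : ℝ} {q0 : ℕ} (hD : 1 ≤ D)
    (h : Good I x D K q0) {N : ℝ} (hN0 : 0 < N) (hN : (I.card : ℝ) ≤ N) {ε : ℝ} (hε : 0 < ε)
    (hε1 : ε < 1) :
    ∃ L0 : ℕ, ∀ b : ℕ, 2 ≤ b → ∀ L : ℕ, L0 ≤ L →
      K ≤ (I.filter fun i => (1 - ε) * (D / (D + 1)) * (L / N) ≤ (complexity b (x i) L : ℝ)).card := by
  classical
  obtain ⟨C, hC0, hC⟩ := count_family hD h
  obtain ⟨K', hK0, hK⟩ := F_linear C ε hC0 hε
  refine ⟨⌈2 * K' / ε ^ 2⌉₊ + 1, fun b hb L hL => ?_⟩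
  have hLR : 2 * K' / ε ^ 2 < L := by
    have h1 := Nat.le_ceil (2 * K' / ε ^ 2)
    have h2 : ((⌈2 * K' / ε ^ 2⌉₊ + 1 : ℕ) : ℝ) ≤ L := by exact_mod_cast hL
    push_cast at h2
    linarith
  rw [div_lt_iff₀ (by positivity)] at hLR
  have hD1 : (1 : ℝ) ≤ D := by exact_mod_cast hD
  obtain ⟨z, hz⟩ : ∃ z : ℝ, z = (1 - ε) * (D / (D + 1)) * (L / N) := ⟨_, rfl⟩
  have hz0 : 0 ≤ z := by
    rw [hz]
    have : 0 ≤ 1 - ε := by linarith
    positivity
  have hm : ((⌊z⌋₊ : ℕ) : ℝ) ≤ z := Nat.floor_le hz0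
  have h1 := hC b hb L ⌊z⌋₊ (by
    have h2 := hK (I.card * ⌊z⌋₊)
    have h3 : ((I.card * ⌊z⌋₊ : ℕ) : ℝ) ≤ N * z := by
      push_cast
      exact mul_le_mul hN hm (Nat.cast_nonneg _) hN0.le
    have h4 : N * z = (1 - ε) * (D / (D + 1)) * L := by
      rw [hz]; field_simp
    have h5 : F C (I.card * ⌊z⌋₊) ≤ (1 + ε) * ((1 - ε) * (D / (D + 1)) * L) + K' := by
      rw [← h4]
      have := mul_le_mul_of_nonneg_left h3 (by linarith : 0 ≤ 1 + ε)
      linarith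
    have h6 := mul_le_mul_of_nonneg_left h5 (by positivity : 0 ≤ 1 + 1 / (D : ℝ))
    have h7 : (1 + 1 / (D : ℝ)) * ((1 + ε) * ((1 - ε) * (D / (D + 1)) * L) + K') =
        (1 - ε ^ 2) * L + (1 + 1 / (D : ℝ)) * K' := by
      field_simp
      ring
    have h8 : (1 + 1 / (D : ℝ)) * K' ≤ 2 * K' := by
      apply mul_le_mul_of_nonneg_right _ hK0
      have : 1 / (D : ℝ) ≤ 1 := by
        rw [div_le_one (by linarith)]; exact hD1
      linarith
    nlinarith)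
  refine h1.trans ?_
  have h2 : (I.filter fun i => ⌊z⌋₊ < complexity b (x i) L) ⊆
      (I.filter fun i => (1 - ε) * (D / (D + 1)) * (L / N) ≤ (complexity b (x i) L : ℝ)) := by
    intro i hi
    rw [mem_filter] at hi ⊢
    refine ⟨hi.1, ?_⟩
    rw [← hz]
    have h3 := Nat.lt_floor_add_one z
    have h4 : ((⌊z⌋₊ + 1 : ℕ) : ℝ) ≤ complexity b (x i) L := by exact_mod_cast hi.2
    push_cast at h4
    linarith
  exact_mod_cast Finset.card_le_card h2

end Pool.Agent.Y928.JL.Fam
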